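import Pool.Agent.R855.Grid.Lin
import Pool.Agent.R855.Grid.CoreP
import Pool.Agent.R855.Drop.Prop

/-!
# Almost `(2,3)`-grid-free irreducible hypersurfaces are not of bounded degree up to Cremona

For `s = 2`, `t = 3` and every `d` the hypersurface
`H = {x_0 (y_1^2 y_0^E + y_2^(E+2)) + x_1 y_2 y_0^(E+1) + x_2 y_0^(E+2) = 0}` in `ℙ² × ℙ²`,
`E = 7 d + 1`, is irreducible and almost `(2,3)`-grid-free, but it is not almost equal to
`{F ∘ (id × σ) = 0}` for any `σ ∈ Bir(ℙ²)` and any `F` of `y`-degree at most `d`.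
-/

set_option autoImplicit false

open MvPolynomial

namespace Pool.Agent.Results.MP_b5dac0_ag.CremonaUnbounded

open Pool.Agent.R855.Grid

/-- The projective space `ℙ^s` over `ℂ`. -/
abbrev PSp (s : ℕ) : Type := Projectivization ℂ (Fin (s+1) → ℂ)

/-- Polynomials in `x_0, …, x_s` and `y_0, …, y_s`: polynomials in the `x_i` with coefficients in
`ℂ[y_0, …, y_s]`. -/
abbrev Poly (s : ℕ) : Type := MvPolynomial (Fin (s+1)) (MvPolynomial (Fin (s+1)) ℂ)

/-- The value `F(u, v)`. -/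
noncomputable def value {s : ℕ} (F : Poly s) (u v : Fin (s+1) → ℂ) : ℂ :=
  eval u (map (eval v) F)

/-- `F` is homogeneous of degree `a` in `x` and of degree `e` in `y`. -/
def IsBihom {s : ℕ} (F : Poly s) (a e : ℕ) : Prop :=
  F.IsHomogeneous a ∧ ∀ m, (coeff m F).IsHomogeneous e

/-- The zero set in `ℙ^s × ℙ^s` of a (bihomogeneous) polynomial. -/
def zeroSet {s : ℕ} (F : Poly s) : Set (PSp s × PSp s) := {p | value F p.1.rep p.2.rep = 0}

/-- Closed subsets of `ℙ^s × ℙ^s`: common zero sets of families of bihomogeneous polynomials. -/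
def IsClosedSet {s : ℕ} (Z : Set (PSp s × PSp s)) : Prop :=
  ∃ I : Set (Poly s), (∀ F ∈ I, ∃ a e, IsBihom F a e) ∧
    Z = {p | ∀ F ∈ I, value F p.1.rep p.2.rep = 0}

/-- Hypersurfaces: zero sets of nonconstant bihomogeneous polynomials. -/
def IsHypersurface {s : ℕ} (H : Set (PSp s × PSp s)) : Prop :=
  ∃ (F : Poly s) (a e : ℕ), IsBihom F a e ∧ F ≠ 0 ∧ 0 < a + e ∧ H = zeroSet F

/-- `H` is irreducible. -/
def IsIrreducibleSet {s : ℕ} (H : Set (PSp s × PSp s)) : Prop :=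
  H.Nonempty ∧ ∀ A B : Set (PSp s × PSp s), IsClosedSet A → IsClosedSet B → H ⊆ A ∪ B →
    H ⊆ A ∨ H ⊆ B

/-- Zariski-open subsets of `ℙ^s`: unions of sets `{f ≠ 0}` with `f` a form. -/
def IsOpenSet {s : ℕ} (U : Set (PSp s)) : Prop :=
  ∃ I : Set (MvPolynomial (Fin (s+1)) ℂ), (∀ f ∈ I, ∃ e, f.IsHomogeneous e) ∧
    U = {p | ∃ f ∈ I, eval p.rep f ≠ 0}

/-- `V ⊆ P₁ × P₂` is `(s, t)`-grid-free: it contains no `S × T` with `|S| = s`, `|T| = t`. -/
def GridFree {P₁ P₂ : Type} (s t : ℕ) (V : Set (P₁ × P₂)) : Prop :=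
  ¬ ∃ (S : Finset P₁) (T : Finset P₂), S.card = s ∧ T.card = t ∧ ∀ a ∈ S, ∀ b ∈ T, (a, b) ∈ V

/-- `V ⊆ ℙ^s × ℙ^s` is almost `(s, t)`-grid-free. -/
def AlmostGridFree {s : ℕ} (t : ℕ) (V : Set (PSp s × PSp s)) : Prop :=
  ∃ X Y : Set (PSp s), IsOpenSet X ∧ IsOpenSet Y ∧ X.Nonempty ∧ Y.Nonempty ∧
    GridFree s t (V ∩ X ×ˢ Y)

/-- `V₁` and `V₂` are almost equal. -/
def AlmostEqual {s : ℕ} (V₁ V₂ : Set (PSp s × PSp s)) : Prop :=
  ∃ X Y : Set (PSp s), IsOpenSet X ∧ IsOpenSet Y ∧ X.Nonempty ∧ Y.Nonempty ∧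
    V₁ ∩ X ×ˢ Y = V₂ ∩ X ×ˢ Y

/-- `σ = (σ_0 : … : σ_s)` is a Cremona transformation: the `σ_i` are forms of one degree without
common factor, and the rational map they define has a rational inverse `ρ`. -/
def IsCremona {s : ℕ} (σ : Fin (s+1) → MvPolynomial (Fin (s+1)) ℂ) : Prop :=
  (∃ e, ∀ i, (σ i).IsHomogeneous e) ∧ (∀ q, (∀ i, q ∣ σ i) → IsUnit q) ∧
    ∃ (ρ : Fin (s+1) → MvPolynomial (Fin (s+1)) ℂ) (e : ℕ) (h h' : MvPolynomial (Fin (s+1)) ℂ),
      (∀ i, (ρ i).IsHomogeneous e) ∧ h ≠ 0 ∧ h' ≠ 0 ∧ (∀ i, bind₁ σ (ρ i) = h * X i) ∧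
      ∀ i, bind₁ ρ (σ i) = h' * X i

/-- `F ∘ (id × σ)`, that is `F(x, σ(y))`. -/
noncomputable def pullback {s : ℕ} (F : Poly s) (σ : Fin (s+1) → MvPolynomial (Fin (s+1)) ℂ) :
    Poly s :=
  map (bind₁ σ : MvPolynomial (Fin (s+1)) ℂ →ₐ[ℂ] MvPolynomial (Fin (s+1)) ℂ).toRingHom F

/-! ### Evaluation -/

lemma value_mul {s : ℕ} (F G : Poly s) (u v : Fin (s+1) → ℂ) :
    value (F * G) u v = value F u v * value G u v := by simp [value]

lemma eval_bind {s : ℕ} (σ : Fin (s+1) → MvPolynomial (Fin (s+1)) ℂ) (v : Fin (s+1) → ℂ)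
    (q : MvPolynomial (Fin (s+1)) ℂ) :
    eval v (bind₁ σ q) = eval (fun i => eval v (σ i)) q := by
  induction q using MvPolynomial.induction_on with
  | C a => simp
  | add p q hp hq => rw [map_add, map_add, map_add, hp, hq]
  | mul_X p i hp => rw [map_mul, map_mul, map_mul, hp, bind₁_X_right, eval_X]

lemma value_pullback {s : ℕ} (F : Poly s) (σ : Fin (s+1) → MvPolynomial (Fin (s+1)) ℂ)
    (u v : Fin (s+1) → ℂ) : value (pullback F σ) u v = value F u (fun i => eval v (σ i)) := by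
  unfold value pullback
  rw [map_map]
  have h : (eval v).comp
      (bind₁ σ : MvPolynomial (Fin (s+1)) ℂ →ₐ[ℂ] MvPolynomial (Fin (s+1)) ℂ).toRingHom =
      eval (fun i => eval v (σ i)) := RingHom.ext fun q => eval_bind σ v q
  rw [h]

lemma eval_smul_form {s e : ℕ} {f : MvPolynomial (Fin (s+1)) ℂ} (hf : f.IsHomogeneous e) (c : ℂ)
    (v : Fin (s+1) → ℂ) : eval (c • v) f = c ^ e * eval v f := by
  rw [eval_eq, eval_eq, Finset.mul_sum]
  refine Finset.sum_congr rfl fun m hm => ?_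
  rw [mem_support_iff] at hm
  have h1 : ∑ i ∈ m.support, m i = e := by
    by_contra hne
    exact hm (hf.coeff_eq_zero hne)
  have h2 : (∏ i ∈ m.support, (c • v) i ^ m i) = c ^ e * ∏ i ∈ m.support, v i ^ m i := by
    rw [← h1, ← Finset.prod_pow_eq_pow_sum, ← Finset.prod_mul_distrib]
    refine Finset.prod_congr rfl fun i _ => ?_
    rw [Pi.smul_apply, smul_eq_mul, mul_pow]
  rw [h2]
  ring

lemma value_smul_right {s a e : ℕ} {F : Poly s} (hF : IsBihom F a e) (c : ℂ)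
    (u v : Fin (s+1) → ℂ) : value F u (c • v) = c ^ e * value F u v := by
  have h : ∀ v, value F u v = eval v (eval (fun i => C (u i)) F) := fun v => bval_eq F u v
  rw [h, h]
  exact eval_smul_form (eval_C_hom F e hF.2 u) c v

lemma value_smul_left {s a e : ℕ} {F : Poly s} (hF : IsBihom F a e) (c : ℂ)
    (u v : Fin (s+1) → ℂ) : value F (c • u) v = c ^ a * value F u v :=
  eval_smul_form (hF.1.map _) c u

lemma value_mk_iff {s a e : ℕ} {F : Poly s} (hF : IsBihom F a e) (u v : Fin (s+1) → ℂ)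
    (hu : u ≠ 0) (hv : v ≠ 0) :
    value F (Projectivization.mk ℂ u hu).rep (Projectivization.mk ℂ v hv).rep = 0 ↔
      value F u v = 0 := by
  obtain ⟨c, hc⟩ := Projectivization.exists_smul_eq_mk_rep ℂ u hu
  obtain ⟨c', hc'⟩ := Projectivization.exists_smul_eq_mk_rep ℂ v hv
  rw [← hc, ← hc']
  rw [show c • u = (c : ℂ) • u from rfl, show c' • v = (c' : ℂ) • v from rfl,
    value_smul_left hF, value_smul_right hF]
  simp

lemma eval_mk_iff {s e : ℕ} {f : MvPolynomial (Fin (s+1)) ℂ} (hf : f.IsHomogeneous e)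
    (u : Fin (s+1) → ℂ) (hu : u ≠ 0) :
    eval (Projectivization.mk ℂ u hu).rep f ≠ 0 ↔ eval u f ≠ 0 := by
  obtain ⟨c, hc⟩ := Projectivization.exists_smul_eq_mk_rep ℂ u hu
  rw [← hc]
  rw [show c • u = (c : ℂ) • u from rfl, eval_smul_form hf]
  simp

lemma bihom_pullback {s a e : ℕ} {F : Poly s} (hF : IsBihom F a e)
    {σ : Fin (s+1) → MvPolynomial (Fin (s+1)) ℂ} {k : ℕ} (hσ : ∀ i, (σ i).IsHomogeneous k) :
    IsBihom (pullback F σ) a (k * e) := by
  refine ⟨hF.1.map _, fun m => ?_⟩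
  unfold pullback
  rw [coeff_map]
  have h := (hF.2 m).aeval σ hσ
  exact h

/-- on a nonempty open set there is a basic open subset -/
lemma exists_form {s : ℕ} {U : Set (PSp s)} (hU : IsOpenSet U) (hne : U.Nonempty) :
    ∃ f : MvPolynomial (Fin (s+1)) ℂ, f ≠ 0 ∧
      ∀ (u : Fin (s+1) → ℂ) (hu : u ≠ 0), eval u f ≠ 0 → Projectivization.mk ℂ u hu ∈ U := by
  obtain ⟨I, hI, rfl⟩ := hU
  obtain ⟨p, f, hf, hp⟩ := hne
  obtain ⟨e, he⟩ := hI f hf
  refine ⟨f, ?_, fun u hu h => ⟨f, hf, (eval_mk_iff he u hu).2 h⟩⟩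
  rintro rfl
  simp at hp

/-! ### The hypersurface -/

/-- the coefficients of the linear form in `x` -/
noncomputable def coef (E : ℕ) : Fin 3 → MvPolynomial (Fin 3) ℂ :=
  ![X 1 ^ 2 * X 0 ^ E + X 2 ^ (E + 2), X 2 * X 0 ^ (E + 1), X 0 ^ (E + 2)]

/-- `x_0 (y_1^2 y_0^E + y_2^(E+2)) + x_1 y_2 y_0^(E+1) + x_2 y_0^(E+2)` -/
noncomputable def thePoly (E : ℕ) : Poly 2 := lin (n := 2) (coef E)

lemma value_thePoly (E : ℕ) (u v : Fin 3 → ℂ) : value (thePoly E) u v =
    (v 1 ^ 2 * v 0 ^ E + v 2 ^ (E + 2)) * u 0 + v 2 * v 0 ^ (E + 1) * u 1 +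
      v 0 ^ (E + 2) * u 2 := by
  have h := bval_lin (n := 2) (coef E) u v
  rw [show value (thePoly E) u v = bval (lin (n := 2) (coef E)) u v from rfl, h]
  simp [coef, Fin.sum_univ_succ, add_assoc]

lemma coef_hom (E : ℕ) (i : Fin 3) : (coef E i).IsHomogeneous (E + 2) := by
  have hX : ∀ j : Fin 3, (X j : MvPolynomial (Fin 3) ℂ).IsHomogeneous 1 :=
    fun j => isHomogeneous_X _ j
  fin_cases i
  · show (X 1 ^ 2 * X 0 ^ E + X 2 ^ (E + 2) : MvPolynomial (Fin 3) ℂ).IsHomogeneous (E + 2)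
    refine IsHomogeneous.add ?_ ?_
    · have := ((hX 1).pow 2).mul ((hX 0).pow E)
      rwa [show 1 * 2 + 1 * E = E + 2 by ring] at this
    · have := (hX 2).pow (E + 2)
      rwa [one_mul] at this
  · show (X 2 * X 0 ^ (E + 1) : MvPolynomial (Fin 3) ℂ).IsHomogeneous (E + 2)
    have := (hX 2).mul ((hX 0).pow (E + 1))
    rwa [show 1 + 1 * (E + 1) = E + 2 by ring] at this
  · show (X 0 ^ (E + 2) : MvPolynomial (Fin 3) ℂ).IsHomogeneous (E + 2)
    have := (hX 0).pow (E + 2)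
    rwa [one_mul] at this

lemma bihom_thePoly (E : ℕ) : IsBihom (thePoly E) 1 (E + 2) :=
  ⟨lin_hom (n := 2) (coef E), fun m => lin_coeff_hom (n := 2) (coef E) _ (coef_hom E) m⟩

lemma prime_thePoly (E : ℕ) : Prime (thePoly E) := by
  refine lin_prime (n := 2) (coef E) 2 ?_ fun q hq => ?_
  · show (X 0 ^ (E + 2) : MvPolynomial (Fin 3) ℂ) ≠ 0
    exact pow_ne_zero _ (X_ne_zero _)
  · have h0 : q ∣ X 1 ^ 2 * X 0 ^ E + X 2 ^ (E + 2) := hq 0
    have h2 : q ∣ X 0 ^ (E + 2) := hq 2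
    have hp : Prime (X 0 : MvPolynomial (Fin 3) ℂ) := X_prime
    obtain ⟨i, -, hi⟩ := (dvd_prime_pow hp (E + 2)).1 h2
    rcases Nat.eq_zero_or_pos i with rfl | hi0
    · rw [pow_zero] at hi
      exact hi.symm.isUnit isUnit_one
    · exfalso
      have h3 : (X 0 : MvPolynomial (Fin 3) ℂ) ∣ X 1 ^ 2 * X 0 ^ E + X 2 ^ (E + 2) :=
        (dvd_pow_self _ (by omega)).trans (hi.symm.dvd.trans h0)
      obtain ⟨r, hr⟩ := h3
      have h4 := congrArg (eval ![0, 0, 1]) hr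
      simp at h4

lemma zeroSet_nonempty (E : ℕ) : (zeroSet (thePoly E)).Nonempty := by
  have h1 : (![0, 1, 0] : Fin 3 → ℂ) ≠ 0 := by
    intro h
    have := congrFun h 1
    simp at this
  have h2 : (![1, 0, 0] : Fin 3 → ℂ) ≠ 0 := by
    intro h
    have := congrFun h 0
    simp at this
  refine ⟨(Projectivization.mk ℂ ![0, 1, 0] h1, Projectivization.mk ℂ ![1, 0, 0] h2), ?_⟩
  show value _ _ _ = 0
  rw [value_mk_iff (bihom_thePoly E), value_thePoly]
  simp

lemma irreducible (E : ℕ) (hE : 1 ≤ E) : IsIrreducibleSet (zeroSet (thePoly E)) := by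
  refine ⟨zeroSet_nonempty E, ?_⟩
  rintro A B ⟨I, hI, rfl⟩ ⟨J, hJ, rfl⟩ hAB
  by_contra hcon
  push Not at hcon
  obtain ⟨h1, h2⟩ := hcon
  rw [Set.not_subset] at h1 h2
  obtain ⟨p, hp, hpA⟩ := h1
  obtain ⟨q, hq, hqB⟩ := h2
  simp only [Set.mem_ofPred_eq, not_forall] at hpA hqB
  obtain ⟨f, hf, hfp⟩ := hpA
  obtain ⟨g, hg, hgq⟩ := hqB
  obtain ⟨a, e, hfh⟩ := hI f hf
  obtain ⟨a', e', hgh⟩ := hJ g hg
  have hdvd : thePoly E ∣ X 0 * C (X 0) * f * g := by
    refine dvd_of_zero _ _ (prime_thePoly E) fun v u huv => ?_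
    change value (thePoly E) u v = 0 at huv
    show value (X 0 * C (X 0) * f * g) u v = 0
    rw [value_mul, value_mul, value_mul]
    have hx : value (X 0 : Poly 2) u v = u 0 := by simp [value]
    have hy : value (C (X 0) : Poly 2) u v = v 0 := by simp [value]
    rw [hx, hy]
    by_cases hu : u = 0
    · simp [hu]
    by_cases hv : v = 0
    · simp [hv]
    have h3 : ((Projectivization.mk ℂ u hu, Projectivization.mk ℂ v hv) : PSp 2 × PSp 2) ∈
        zeroSet (thePoly E) := (value_mk_iff (bihom_thePoly E) u v hu hv).2 huv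
    rcases hAB h3 with h4 | h4
    · have h5 := (value_mk_iff hfh u v hu hv).1 (h4 f hf)
      rw [h5]
      ring
    · have h5 := (value_mk_iff hgh u v hu hv).1 (h4 g hg)
      rw [h5]
      ring
  have hval : ∀ (G : Poly 2) (u v : Fin 3 → ℂ), thePoly E ∣ G → value (thePoly E) u v = 0 →
      value G u v = 0 := by
    rintro G u v ⟨R, rfl⟩ h
    rw [value_mul, h, zero_mul]
  rcases (prime_thePoly E).dvd_or_dvd hdvd with hdvd | hdvd
  · rcases (prime_thePoly E).dvd_or_dvd hdvd with hdvd | hdvd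
    · rcases (prime_thePoly E).dvd_or_dvd hdvd with hdvd | hdvd
      · have h3 := hval _ ![1, 0, 0] ![0, 1, 0] hdvd (by
          rw [value_thePoly]
          simp
          omega)
        simp [value] at h3
      · have h3 := hval _ ![0, 1, 0] ![1, 0, 0] hdvd (by
          rw [value_thePoly]
          simp)
        simp [value] at h3
    · exact hfp (hval _ _ _ hdvd hp)
  · exact hgq (hval _ _ _ hdvd hq)

/-! ### Grids -/

/-- equality of points in the chart -/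
lemma eq_of_chart {p q : PSp 2} (hp : p.rep 0 ≠ 0) (hq : q.rep 0 ≠ 0)
    (h1 : p.rep 1 / p.rep 0 = q.rep 1 / q.rep 0) (h2 : p.rep 2 / p.rep 0 = q.rep 2 / q.rep 0) :
    p = q := by
  rw [← p.mk_rep, ← q.mk_rep, Projectivization.mk_eq_mk_iff']
  refine ⟨p.rep 0 / q.rep 0, ?_⟩
  rw [div_eq_div_iff hp hq] at h1 h2
  funext i
  rw [Pi.smul_apply, smul_eq_mul]
  fin_cases i
  · show p.rep 0 / q.rep 0 * q.rep 0 = p.rep 0
    field_simp
  · show p.rep 0 / q.rep 0 * q.rep 1 = p.rep 1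
    field_simp
    linear_combination -h1
  · show p.rep 0 / q.rep 0 * q.rep 2 = p.rep 2
    field_simp
    linear_combination -h2

lemma chart_open : IsOpenSet {p : PSp 2 | p.rep 0 ≠ 0} := by
  refine ⟨{X 0}, ?_, ?_⟩
  · rintro f rfl
    exact ⟨1, isHomogeneous_X _ _⟩
  · ext p
    simp

lemma chart_nonempty : {p : PSp 2 | p.rep 0 ≠ 0}.Nonempty := by
  have h : (![1, 0, 0] : Fin 3 → ℂ) ≠ 0 := by
    intro h
    have := congrFun h 0
    simp at this
  refine ⟨Projectivization.mk ℂ ![1, 0, 0] h, ?_⟩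
  have := (eval_mk_iff (s := 2) (isHomogeneous_X ℂ (0 : Fin 3)) ![1, 0, 0] h).2 (by simp)
  simpa using this

lemma affine_eq {E : ℕ} {p q : PSp 2} (hp : p.rep 0 ≠ 0) (hq : q.rep 0 ≠ 0)
    (h : (p, q) ∈ zeroSet (thePoly E)) :
    (q.rep 1 / q.rep 0) ^ 2 + (q.rep 2 / q.rep 0) ^ (E + 2) +
      (q.rep 2 / q.rep 0) * (p.rep 1 / p.rep 0) + p.rep 2 / p.rep 0 = 0 := by
  change value (thePoly E) p.rep q.rep = 0 at h
  rw [value_thePoly] at h
  have h1 : (p.rep 0 * q.rep 0 ^ (E + 2)) * ((q.rep 1 / q.rep 0) ^ 2 +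
      (q.rep 2 / q.rep 0) ^ (E + 2) + (q.rep 2 / q.rep 0) * (p.rep 1 / p.rep 0) +
      p.rep 2 / p.rep 0) = 0 := by
    rw [← h, div_pow, div_pow]
    field_simp
    ring
  exact (mul_eq_zero.1 h1).resolve_left (mul_ne_zero hp (pow_ne_zero _ hq))

lemma almostGridFree (E : ℕ) : AlmostGridFree 3 (zeroSet (thePoly E)) := by
  classical
  refine ⟨_, _, chart_open, chart_open, chart_nonempty, chart_nonempty, ?_⟩
  rintro ⟨S, T, hS, hT, h⟩
  obtain ⟨a, b, hab, rfl⟩ := Finset.card_eq_two.1 hS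
  obtain ⟨w, w', w'', h1, h2, h3, rfl⟩ := Finset.card_eq_three.1 hT
  have hmem : ∀ p ∈ ({a, b} : Finset (PSp 2)), ∀ q ∈ ({w, w', w''} : Finset (PSp 2)),
      (p, q) ∈ zeroSet (thePoly E) ∧ p.rep 0 ≠ 0 ∧ q.rep 0 ≠ 0 := by
    intro p hp q hq
    obtain ⟨h4, h5⟩ := h p hp q hq
    exact ⟨h4, h5.1, h5.2⟩
  obtain ⟨haw, ha, hw⟩ := hmem a (by simp) w (by simp)
  obtain ⟨haw', -, hw'⟩ := hmem a (by simp) w' (by simp)
  obtain ⟨haw'', -, hw''⟩ := hmem a (by simp) w'' (by simp)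
  obtain ⟨hbw, hb, -⟩ := hmem b (by simp) w (by simp)
  obtain ⟨hbw', -, -⟩ := hmem b (by simp) w' (by simp)
  obtain ⟨hbw'', -, -⟩ := hmem b (by simp) w'' (by simp)
  have e1 := affine_eq ha hw haw
  have e2 := affine_eq ha hw' haw'
  have e3 := affine_eq ha hw'' haw''
  have f1 := affine_eq hb hw hbw
  have f2 := affine_eq hb hw' hbw'
  have f3 := affine_eq hb hw'' hbw''
  have hne : a.rep 1 / a.rep 0 ≠ b.rep 1 / b.rep 0 := by
    intro h0
    apply hab
    refine eq_of_chart ha hb h0 ?_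
    rw [h0] at e1
    linear_combination e1 - f1
  have g2 : w'.rep 2 / w'.rep 0 = w.rep 2 / w.rep 0 := by
    have : (a.rep 1 / a.rep 0 - b.rep 1 / b.rep 0) *
        (w'.rep 2 / w'.rep 0 - w.rep 2 / w.rep 0) = 0 := by
      linear_combination e2 - f2 - e1 + f1
    exact sub_eq_zero.1 ((mul_eq_zero.1 this).resolve_left (sub_ne_zero.2 hne))
  have g3 : w''.rep 2 / w''.rep 0 = w.rep 2 / w.rep 0 := by
    have : (a.rep 1 / a.rep 0 - b.rep 1 / b.rep 0) *
        (w''.rep 2 / w''.rep 0 - w.rep 2 / w.rep 0) = 0 := by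
      linear_combination e3 - f3 - e1 + f1
    exact sub_eq_zero.1 ((mul_eq_zero.1 this).resolve_left (sub_ne_zero.2 hne))
  rw [g2] at e2
  rw [g3] at e3
  have k2 : (w'.rep 1 / w'.rep 0 - w.rep 1 / w.rep 0) *
      (w'.rep 1 / w'.rep 0 + w.rep 1 / w.rep 0) = 0 := by
    linear_combination e2 - e1
  have k3 : (w''.rep 1 / w''.rep 0 - w.rep 1 / w.rep 0) *
      (w''.rep 1 / w''.rep 0 + w.rep 1 / w.rep 0) = 0 := by
    linear_combination e3 - e1
  rcases mul_eq_zero.1 k2 with k2 | k2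
  · exact h1 (eq_of_chart hw hw' (sub_eq_zero.1 k2).symm g2.symm)
  rcases mul_eq_zero.1 k3 with k3 | k3
  · exact h2 (eq_of_chart hw hw'' (sub_eq_zero.1 k3).symm g3.symm)
  refine h3 (eq_of_chart hw' hw'' ?_ (g2.trans g3.symm))
  linear_combination k2 - k3

/-! ### The lower bound -/

lemma algInd_inv {s : ℕ} {σ ρ : Fin (s+1) → MvPolynomial (Fin (s+1)) ℂ} {k e : ℕ}
    {h : MvPolynomial (Fin (s+1)) ℂ} (hσ : ∀ i, (σ i).IsHomogeneous k)
    (hρ : ∀ i, (ρ i).IsHomogeneous e) (hh : h ≠ 0) (hX : ∀ i, bind₁ σ (ρ i) = h * X i) :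
    AlgebraicIndependent ℂ ρ := by
  have h1 : AlgebraicIndependent ℂ (fun i => bind₁ σ (ρ i)) :=
    Pool.Agent.R855.Drop.algInd_mul (d := k * e) (e := 1) X (fun i => bind₁ σ (ρ i)) h
      (fun i => isHomogeneous_X _ i) (fun i => (hρ i).aeval σ hσ) hX hh
      (algebraicIndependent_X (Fin (s+1)) ℂ)
  exact AlgebraicIndependent.of_comp (bind₁ σ) h1

lemma not_almostEqual (d : ℕ) (σ : Fin 3 → MvPolynomial (Fin 3) ℂ) (hσ : IsCremona (s := 2) σ)
    (F : Poly 2) (a e : ℕ) (hF : IsBihom F a e) (hed : e ≤ d) :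
    ¬ AlmostEqual (zeroSet (thePoly (7 * d + 1))) (zeroSet (pullback F σ)) := by
  rintro ⟨U, V, hU, hV, hUne, hVne, heq⟩
  set E := 7 * d + 1 with hEdef
  obtain ⟨⟨k, hk⟩, -, ρ, r, h, h', hρ, hh, hh', hX, hX'⟩ := hσ
  obtain ⟨a0, ha0, haU⟩ := exists_form hU hUne
  obtain ⟨b0, hb0, hbV⟩ := exists_form hV hVne
  have hind : AlgebraicIndependent ℂ ρ := algInd_inv hk hρ hh hX
  -- the equality of zero sets on the open sets
  have hiff : ∀ u v : Fin 3 → ℂ, u ≠ 0 → v ≠ 0 → eval u a0 ≠ 0 → eval v b0 ≠ 0 →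
      (value (thePoly E) u v = 0 ↔ value F u (fun i => eval v (σ i)) = 0) := by
    intro u v hu hv hua hvb
    have h1 : ((Projectivization.mk ℂ u hu, Projectivization.mk ℂ v hv) : PSp 2 × PSp 2) ∈
        zeroSet (thePoly E) ∩ U ×ˢ V ↔
        ((Projectivization.mk ℂ u hu, Projectivization.mk ℂ v hv) : PSp 2 × PSp 2) ∈
        zeroSet (pullback F σ) ∩ U ×ˢ V := by rw [heq]
    have h2 : ((Projectivization.mk ℂ u hu, Projectivization.mk ℂ v hv) : PSp 2 × PSp 2) ∈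
        U ×ˢ V := ⟨haU u hu hua, hbV v hv hvb⟩
    have h3 : ((Projectivization.mk ℂ u hu, Projectivization.mk ℂ v hv) : PSp 2 × PSp 2) ∈
        zeroSet (thePoly E) ↔ value (thePoly E) u v = 0 :=
      value_mk_iff (bihom_thePoly E) u v hu hv
    have h4 : ((Projectivization.mk ℂ u hu, Projectivization.mk ℂ v hv) : PSp 2 × PSp 2) ∈
        zeroSet (pullback F σ) ↔ value (pullback F σ) u v = 0 :=
      value_mk_iff (bihom_pullback hF hk) u v hu hv
    rw [← value_pullback, ← h3, ← h4]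
    constructor
    · intro h5
      exact (h1.1 ⟨h5, h2⟩).1
    · intro h5
      exact (h1.2 ⟨h5, h2⟩).1
  have hmapval : ∀ u v : Fin 3 → ℂ, value (map C a0 : Poly 2) u v = eval u a0 := by
    intro u v
    unfold value
    rw [map_map]
    have : (eval v).comp C = RingHom.id ℂ := by
      ext z
      simp
    rw [this, map_id]
  have ha0' : (map C a0 : Poly 2) ≠ 0 := by
    rw [Ne, ← map_zero (map C : MvPolynomial (Fin 3) ℂ →+* Poly 2)]
    intro h1
    exact ha0 (map_injective _ (C_injective _ _) h1)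
  -- `F` is nonzero
  have hF0 : F ≠ 0 := by
    rintro rfl
    have h1 : (map C a0 : Poly 2) * X 0 * C (b0 * X 0) * thePoly E = 0 := by
      apply bval_ext (n := 2)
      intro u v
      show value _ u v = 0
      rw [value_mul, value_mul, value_mul, hmapval]
      by_cases hu : u = 0
      · simp [hu, value]
      by_cases hv : v = 0
      · simp [hv, value]
      by_cases hua : eval u a0 = 0
      · rw [hua]
        ring
      by_cases hvb : eval v b0 = 0
      · simp [hvb, value]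
      have h2 := (hiff u v hu hv hua hvb).2 (by simp [value])
      rw [h2, mul_zero]
    refine mul_ne_zero (mul_ne_zero (mul_ne_zero ha0' (X_ne_zero _)) ?_)
      (prime_thePoly E).ne_zero h1
    rw [Ne, ← C_0, C_inj]
    exact mul_ne_zero hb0 (X_ne_zero _)
  -- the reduced coefficients
  have hhom : ∀ i, (bind₁ ρ (coef E (Fin.rev i))).IsHomogeneous (r * (E + 2)) := fun i =>
    (coef_hom E (Fin.rev i)).aeval ρ hρ
  have hρ0 : ρ 0 ≠ 0 := hind.ne_zero 0
  have hc0 : bind₁ ρ (coef E 2) = ρ 0 ^ (E + 2) := by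
    simp [coef]
  have hc1 : bind₁ ρ (coef E 1) = ρ 2 * ρ 0 ^ (E + 1) := by
    simp [coef]
  have hc2 : bind₁ ρ (coef E 0) = ρ 1 ^ 2 * ρ 0 ^ E + ρ 2 ^ (E + 2) := by
    simp [coef]
  obtain ⟨δ, K, G', hK, hG', hG'hom, hG'cop⟩ := Pool.Agent.Helper993.CS.redDeg_exists
    (K := ℂ) (N := 2) (r * (E + 2)) (fun i => bind₁ ρ (coef E (Fin.rev i))) hhom (by
      show bind₁ ρ (coef E (Fin.rev 0)) ≠ 0
      rw [show (Fin.rev 0 : Fin 3) = 2 from rfl, hc0]
      exact pow_ne_zero _ hρ0)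
  set G : Fin 3 → MvPolynomial (Fin 3) ℂ := fun i => G' (Fin.rev i) with hGdef
  have hG : ∀ i, bind₁ ρ (coef E i) = K * G i := by
    intro i
    have h1 : bind₁ ρ (coef E (Fin.rev (Fin.rev i))) = K * G' (Fin.rev i) := hG' (Fin.rev i)
    rwa [Fin.rev_rev] at h1
  have hGhom : ∀ i, (G i).IsHomogeneous δ := fun i => hG'hom _
  have hGcop : ∀ q, (∀ i, q ∣ G i) → IsUnit q := by
    intro q hq
    apply hG'cop
    intro i
    have h1 : q ∣ G' (Fin.rev (Fin.rev i)) := hq (Fin.rev i)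
    rwa [Fin.rev_rev] at h1
  have hG2 : G 2 ≠ 0 := by
    intro h0
    have h1 := hG 2
    rw [h0, mul_zero, hc0] at h1
    exact pow_ne_zero _ hρ0 h1
  have hL : Prime (lin (n := 2) G) := lin_prime (n := 2) G 2 hG2 hGcop
  -- divisibility
  have hbρ : bind₁ ρ b0 ≠ 0 := by
    intro h0
    exact hb0 (hind.eq_zero_of_aeval_eq_zero _ h0)
  have hdvd : lin (n := 2) G ∣ (map C a0 : Poly 2) * X 0 * C (bind₁ ρ b0 * ρ 0 * h') * F := by
    refine dvd_of_zero _ _ hL fun v u huv => ?_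
    change bval (lin (n := 2) G) u v = 0 at huv
    show value _ u v = 0
    rw [value_mul, value_mul, value_mul, hmapval]
    have hx : value (X 0 : Poly 2) u v = u 0 := by simp [value]
    have hy : ∀ q, value (C q : Poly 2) u v = eval v q := fun q => by simp [value]
    rw [hx, hy, map_mul, map_mul]
    by_cases hu : u 0 = 0
    · rw [hu]
      ring
    by_cases hua : eval u a0 = 0
    · rw [hua]
      ring
    by_cases hv1 : eval v (bind₁ ρ b0) = 0
    · rw [hv1]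
      ring
    by_cases hv2 : eval v (ρ 0) = 0
    · rw [hv2]
      ring
    by_cases hv3 : eval v h' = 0
    · rw [hv3]
      ring
    set w : Fin 3 → ℂ := fun i => eval v (ρ i) with hw
    have hbind : ∀ q : MvPolynomial (Fin 3) ℂ, eval v (bind₁ ρ q) = eval w q := by
      intro q
      exact eval_bind (s := 2) ρ v q
    have hu0 : u ≠ 0 := fun h0 => hu (by rw [h0]; rfl)
    have hw0 : w ≠ 0 := fun h0 => hv2 (by
      have := congrFun h0 0
      exact this)
    have h1 : value (thePoly E) u w = 0 := by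
      have h2 : value (thePoly E) u w = eval v K * bval (lin (n := 2) G) u v := by
        rw [show value (thePoly E) u w = bval (lin (n := 2) (coef E)) u w from rfl, bval_lin,
          bval_lin, Finset.mul_sum]
        refine Finset.sum_congr rfl fun i _ => ?_
        rw [← hbind, hG i, map_mul, mul_assoc]
      rw [h2, huv, mul_zero]
    rw [hbind] at hv1
    have h2 := (hiff u w hu0 hw0 hua hv1).1 h1
    have h3 : (fun i => eval w (σ i)) = eval v h' • v := by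
      funext i
      rw [← hbind, hX' i, map_mul, eval_X]
      rfl
    rw [h3, value_smul_right hF] at h2
    have h4 := (mul_eq_zero.1 h2).resolve_left (pow_ne_zero _ hv3)
    rw [h4, mul_zero]
  -- the degree is bounded
  have hδ : δ ≤ d := by
    rcases hL.dvd_or_dvd hdvd with hdvd | hdvd
    · rcases hL.dvd_or_dvd hdvd with hdvd | hdvd
      · have hle : δ ≤ 0 := by
          refine deg_le (n := 2) G δ 0 hGhom _ (mul_ne_zero ha0' (X_ne_zero 0)) ?_ hdvd
          intro m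
          have h1 : (map C a0 : Poly 2) * X 0 = map C (a0 * X 0) := by simp
          rw [h1, coeff_map]
          exact isHomogeneous_C _ _
        omega
      · exfalso
        have hc : (C (bind₁ ρ b0 * ρ 0 * h') : Poly 2) ≠ 0 := by
          rw [Ne, ← C_0, C_inj]
          exact mul_ne_zero (mul_ne_zero hbρ hρ0) hh'
        have h1 := totalDegree_le_of_dvd_of_isDomain hdvd hc
        rw [totalDegree_C, (lin_hom (n := 2) G).totalDegree hL.ne_zero] at h1
        omega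
    · exact (deg_le (n := 2) G δ e hGhom F hF0 hF.2 hdvd).trans hed
  refine core_proj (M := 2) δ E (ρ 0) (ρ 1) (ρ 2) (G 2) (G 1) (G 0) K (by omega) (hGhom 2)
    (hGhom 1) (hGhom 0) hρ0 (hind.ne_zero 1) (by rw [← hc0, hG 2]) (by rw [← hc1, hG 1])
    (by rw [← hc2, hG 0]) ?_ ?_
  · intro c hc
    have h1 : aeval ρ (X 2 - C c * X 0 : MvPolynomial (Fin 3) ℂ) = 0 := by
      simp [hc, algebraMap_eq]
    have h2 := hind.eq_zero_of_aeval_eq_zero _ h1
    have h3 := congrArg (eval ![0, 0, 1]) h2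
    simp at h3
  · intro c hc
    have h1 : aeval ρ (X 1 ^ 2 * X 0 ^ (E + 2) - C c * (X 2 ^ (E + 2) * X 0 ^ 2) :
        MvPolynomial (Fin 3) ℂ) = 0 := by
      simp [hc, algebraMap_eq]
    have h2 := hind.eq_zero_of_aeval_eq_zero _ h1
    have h3 := congrArg (eval ![1, 1, 0]) h2
    simp at h3

/-- **Negative answer.**  For `s = 2`, `t = 3` and for every `d` there is an irreducible
hypersurface `H ⊆ ℙ² × ℙ²` which is almost `(2,3)`-grid-free and which is not almost equal to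
`{F ∘ (id × σ) = 0}` for any `σ ∈ Bir(ℙ²)` and any bihomogeneous `F` of degree at most `d` in
`y`. -/
theorem result : ∀ d : ℕ, ∃ H : Set (PSp 2 × PSp 2), IsHypersurface H ∧ IsIrreducibleSet H ∧
    AlmostGridFree 3 H ∧ ∀ σ : Fin 3 → MvPolynomial (Fin 3) ℂ, IsCremona (s := 2) σ →
      ∀ (F : Poly 2) (a e : ℕ), IsBihom F a e → e ≤ d →
        ¬ AlmostEqual H (zeroSet (pullback F σ)) :=
  fun d => ⟨zeroSet (thePoly (7 * d + 1)),
    ⟨thePoly (7 * d + 1), 1, _, bihom_thePoly _, (prime_thePoly _).ne_zero, by omega,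
      rfl⟩,
    irreducible _ (by omega), almostGridFree _,
    fun σ hσ F a e hF hed => not_almostEqual d σ hσ F a e hF hed⟩

end Pool.Agent.Results.MP_b5dac0_ag.CremonaUnbounded
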